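import Pool.Agent.Helper63.ST.Defs

/-!
MP_82cbb9_al, structure theorem: ST-12 and ST-13 (commutator calculus).
-/

set_option autoImplicit false

namespace Pool.Agent.ST

open scoped commutatorElement

theorem conjAb_cls {G : Type} [Group G] {A : Subgroup G} [hA : A.Normal] (g : G) (a : A) :
    conjAb A g (cls a) = cls (⟨g * a * g⁻¹, hA.conj_mem a a.2 g⟩ : A) := rfl

theorem cls_mul {G : Type} [Group G] {A : Subgroup G} (a b : A) :
    cls (a * b) = cls a + cls b := rfl

theorem cls_inv {G : Type} [Group G] {A : Subgroup G} (a : A) :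
    cls (a⁻¹) = - cls a := rfl

/-- the class of a commutator -/
theorem cls_commutator {G : Type} [Group G] {A : Subgroup G} [hA : A.Normal] (p q : G)
    (hp : p ∈ A) (hpq : ⁅p, q⁆ ∈ A) :
    cls (⟨⁅p, q⁆, hpq⟩ : A) = - (conjAb A q - 1) (cls (⟨p, hp⟩ : A)) := by
  have e : (⟨⁅p, q⁆, hpq⟩ : A) =
      ⟨p, hp⟩ * (⟨q * p * q⁻¹, hA.conj_mem p hp q⟩ : A)⁻¹ := by
    apply Subtype.ext
    simp [commutatorElement_def, mul_assoc]
  rw [e, cls_mul, cls_inv]
  have : (conjAb A q - 1) (cls (⟨p, hp⟩ : A)) =
      conjAb A q (cls (⟨p, hp⟩ : A)) - cls (⟨p, hp⟩ : A) := rfl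
  rw [this, conjAb_cls]
  abel

/-- ST-12 -/
theorem lcs_le_pull {G : Type} [Group G] (A : Subgroup G) [A.Normal] (M : Subgroup G)
    (D₁ D₂ : AddSubgroup (Additive (Abelianization A))) (n : ℕ)
    (h : ∀ l : List G, l.length = n → (∀ h ∈ l, h ∈ M) →
      ∀ b ∈ D₁, opProd (conjAb A) l b ∈ D₂) {c : ℕ} (hc : M.lowerCentralSeries c ≤ pull A D₁) :
    M.lowerCentralSeries (c + n) ≤ pull A D₂ := by
  classical
  let E : ℕ → AddSubgroup (Additive (Abelianization A)) := fun j =>
    AddSubgroup.closure {x | ∃ l : List G, l.length = j ∧ (∀ h ∈ l, h ∈ M) ∧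
      ∃ b ∈ D₁, opProd (conjAb A) l b = x}
  have key : ∀ j, M.lowerCentralSeries (c + j) ≤ pull A (E j) := by
    intro j
    induction j with
    | zero =>
      refine hc.trans ?_
      rintro x ⟨hx, hx'⟩
      exact ⟨hx, AddSubgroup.subset_closure ⟨[], rfl, by simp, _, hx', by simp [opProd]⟩⟩
    | succ j ih =>
      rw [← add_assoc, Subgroup.lowerCentralSeries_succ, Subgroup.commutator_le]
      intro p hp q hq
      obtain ⟨hpA, hpE⟩ := ih hp
      have hpq : ⁅p, q⁆ ∈ A := Subgroup.commutator_le_left A ⊤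
        (Subgroup.commutator_mem_commutator hpA (Subgroup.mem_top q))
      refine ⟨hpq, ?_⟩
      rw [cls_commutator p q hpA hpq]
      refine (E (j + 1)).neg_mem ?_
      have hmap : E j ≤ (E (j + 1)).comap (conjAb A q - 1) := by
        rw [AddSubgroup.closure_le]
        rintro x ⟨l, hl, hl', b, hb, rfl⟩
        refine AddSubgroup.subset_closure ⟨q :: l, by simp [hl], ?_, b, hb, ?_⟩
        · intro x hx
          rcases List.mem_cons.1 hx with rfl | hx
          · exact hq
          · exact hl' x hx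
        · simp only [opProd, List.map_cons, List.prod_cons]
          rfl
      exact hmap hpE
  refine (key n).trans ?_
  have hE : E n ≤ D₂ := by
    rw [AddSubgroup.closure_le]
    rintro x ⟨l, hl, hl', b, hb, rfl⟩
    exact h l hl hl' b hb
  rintro x ⟨hx, hx'⟩
  exact ⟨hx, hE hx'⟩

/-- ST-13 -/
theorem exists_genBy_commutator {H : Type} [Group H] [Group.FG H] :
    ∃ s : Finset (Additive (Abelianization (commutator H))),
      GenBy (conjAb (commutator H)) s := by
  classical
  obtain ⟨T, hT⟩ := Group.FG.out (G := H)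
  have hmem : ∀ a b : H, ⁅a, b⁆ ∈ commutator H := fun a b =>
    Subgroup.commutator_mem_commutator (Subgroup.mem_top a) (Subgroup.mem_top b)
  refine ⟨(T ×ˢ T).image fun x => cls (⟨⁅x.1, x.2⁆, hmem _ _⟩ : commutator H), ?_⟩
  intro C hC hinv
  have hN : (pull (commutator H) C).Normal := by
    refine ⟨?_⟩
    rintro x ⟨hx, hx'⟩ g
    refine ⟨Subgroup.Normal.conj_mem inferInstance x hx g, ?_⟩
    exact hinv g _ hx'
  have h1 : ∀ a ∈ T, ∀ b ∈ T, ⁅a, b⁆ ∈ pull (commutator H) C := by
    intro a ha b hb
    exact ⟨hmem a b, hC _ (Finset.mem_image.2 ⟨(a, b), Finset.mem_product.2 ⟨ha, hb⟩, rfl⟩)⟩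
  have h2 : commutator H ≤ pull (commutator H) C := by
    set N := pull (commutator H) C
    have hcl : Subgroup.closure (T : Set H) = ⊤ := hT
    have h3 : ∀ a ∈ T, ∀ b, ⁅a, b⁆ ∈ N := by
      intro a ha b
      have : b ∈ Subgroup.closure (T : Set H) := by rw [hcl]; trivial
      rw [← QuotientGroup.eq_one_iff]
      induction this using Subgroup.closure_induction with
      | mem x hx => exact (QuotientGroup.eq_one_iff _).2 (h1 a ha x hx)
      | one => simp
      | mul x y _ _ hx hy =>
        rw [← QuotientGroup.mk'_apply, map_commutatorElement,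
          commutatorElement_eq_one_iff_mul_comm] at hx hy ⊢
        rw [map_mul, ← mul_assoc, hx, mul_assoc, hy, mul_assoc]
      | inv x _ hx =>
        rw [← QuotientGroup.mk'_apply, map_commutatorElement,
          commutatorElement_eq_one_iff_mul_comm] at hx ⊢
        rw [map_inv]
        exact (Commute.inv_right hx : _)
    rw [commutator_def, Subgroup.commutator_le]
    intro a ha b _
    have : a ∈ Subgroup.closure (T : Set H) := by rw [hcl]; trivial
    clear ha
    rw [← QuotientGroup.eq_one_iff]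
    induction this using Subgroup.closure_induction with
    | mem x hx => exact (QuotientGroup.eq_one_iff _).2 (h3 x hx b)
    | one => simp
    | mul x y _ _ hx hy =>
      rw [← QuotientGroup.mk'_apply, map_commutatorElement,
        commutatorElement_eq_one_iff_mul_comm] at hx hy ⊢
      rw [map_mul, mul_assoc, hy, ← mul_assoc, hx, mul_assoc]
    | inv x _ hx =>
      rw [← QuotientGroup.mk'_apply, map_commutatorElement,
        commutatorElement_eq_one_iff_mul_comm] at hx ⊢
      rw [map_inv]
      exact (Commute.inv_left hx : _)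
  rw [eq_top_iff]
  intro x _
  obtain ⟨x, rfl⟩ := Additive.ofMul.surjective x
  obtain ⟨a, rfl⟩ := QuotientGroup.mk_surjective x
  obtain ⟨_, h⟩ := h2 a.2
  exact h

end Pool.Agent.ST
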